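import Pool.Agent.Q266.OC.Def
import Pool.Agent.Q266.OC.Asm

/-!
# MP_020e9d_co: arrangements of orthogonal circles with many triangular faces

A circle is given by its centre and its radius. An arrangement of orthogonal circles is a finite
set of circles any two of which are disjoint or cross orthogonally in two points. For every
`n ≥ 22` there is an arrangement of `n` orthogonal circles with more than `3n - 3` triangular
faces, and for every `n ≥ 225` there is one with at least `(32/9) n - 27 √n` triangular faces.
-/

set_option autoImplicit false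

namespace Pool.Agent.Results.MP_020e9d_co.ManyTriangles

open Pool.Agent.Q266.OC

/-- **Theorem.** For all `n ≥ 22` an arrangement of `n` orthogonal circles can have more than
`3n - 3` triangular faces; for all `n ≥ 225` it can have at least `(32/9) n - 27 √n` of them. -/
theorem result :
    (∀ n : ℕ, 22 ≤ n → ∃ B : Finset (ℂ × ℝ), IsArr B ∧ B.card = n ∧
      ∃ T : Finset (Set ℂ), 3 * n - 3 < T.card ∧ ∀ F ∈ T, Triangular B F) ∧
    (∀ n : ℕ, 225 ≤ n → ∃ B : Finset (ℂ × ℝ), IsArr B ∧ B.card = n ∧
      ∃ T : Finset (Set ℂ), (32 / 9 : ℝ) * n - 27 * √(n : ℝ) ≤ (T.card : ℝ) ∧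
        ∀ F ∈ T, Triangular B F) :=
  fin_result

end Pool.Agent.Results.MP_020e9d_co.ManyTriangles
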